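import Mathlib
import Pool.Agent.helper83.FI4B.SpecE2

/-! Row BTP of the project fi4b (MP_baa4d7_al): traces of the powers of a commuting operator of finite order. -/

set_option autoImplicit false

namespace Pool.Agent.FI4B

open Pool.Agent.helper58.DC Pool.Agent.DI Pool.Agent.GR Pool.Agent.OB Pool.Agent.DR Pool.Agent.FI Pool.Agent.FI3 Pool.Agent.FI4 Pool.Agent.FI4I Pool.Agent.FI4E

theorem BTP_rank {n : Type} [Fintype n] [DecidableEq n] (A : Matrix n n ℂ) (hA : A * A = A) :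
    ∃ l : ℕ, Matrix.trace A = l ∧ (l = 0 → A = 0) := by
  have h1 : IsIdempotentElem (Matrix.toLin' A) := by
    change Matrix.toLin' A * Matrix.toLin' A = Matrix.toLin' A
    rw [Module.End.mul_eq_comp, ← Matrix.toLin'_mul, hA]
  have h2 : LinearMap.IsProj (LinearMap.range (Matrix.toLin' A)) (Matrix.toLin' A) := by
    refine ⟨fun x => LinearMap.mem_range_self _ x, ?_⟩
    rintro x ⟨y, rfl⟩
    exact LinearMap.congr_fun h1 y
  have h3 := h2.trace
  refine ⟨Module.finrank ℂ (LinearMap.range (Matrix.toLin' A)), ?_, ?_⟩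
  · rw [← h3, Matrix.trace_toLin'_eq]
  · intro h0
    have h4 : LinearMap.range (Matrix.toLin' A) = ⊥ := Submodule.finrank_eq_zero.1 h0
    have h5 : Matrix.toLin' A = 0 := LinearMap.range_eq_bot.1 h4
    exact (LinearEquiv.map_eq_zero_iff Matrix.toLin').1 h5

theorem BTP_geom {n : Type} [Fintype n] [DecidableEq n] (G : Matrix n n ℂ) (q : ℕ) (hG : G ^ q = 1) :
    G * (∑ j ∈ Finset.range q, G ^ j) = ∑ j ∈ Finset.range q, G ^ j := by
  have h1 : ∑ j ∈ Finset.range (q + 1), G ^ j = ∑ j ∈ Finset.range q, G ^ j + G ^ q :=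
    Finset.sum_range_succ _ _
  have h2 : ∑ j ∈ Finset.range (q + 1), G ^ j = ∑ j ∈ Finset.range q, G ^ (j + 1) + G ^ 0 :=
    Finset.sum_range_succ' _ _
  rw [Finset.mul_sum]
  have h3 : ∑ j ∈ Finset.range q, G * G ^ j = ∑ j ∈ Finset.range q, G ^ (j + 1) :=
    Finset.sum_congr rfl fun j _ => by rw [pow_succ']
  rw [h3]
  rw [h1, hG, pow_zero] at h2
  exact (add_right_cancel h2).symm

theorem BTP_geom' {n : Type} [Fintype n] [DecidableEq n] (G : Matrix n n ℂ) (q : ℕ) (hG : G ^ q = 1) :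
    (∑ j ∈ Finset.range q, G ^ j) * (∑ j ∈ Finset.range q, G ^ j) =
      (q : ℂ) • ∑ j ∈ Finset.range q, G ^ j := by
  have h1 : ∀ j : ℕ, G ^ j * (∑ k ∈ Finset.range q, G ^ k) = ∑ k ∈ Finset.range q, G ^ k := by
    intro j
    induction j with
    | zero => rw [pow_zero, one_mul]
    | succ j ih => rw [pow_succ, mul_assoc, BTP_geom G q hG, ih]
  rw [Finset.sum_mul, Finset.sum_congr rfl fun j _ => h1 j, Finset.sum_const, Finset.card_range,
    Nat.cast_smul_eq_nsmul]

/-- orthogonality -/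
theorem BTP_orth (m : ℕ) (w : ℂ) (hw : IsPrimitiveRoot w m) (hm : 0 < m) (j l : ℕ) (hl : l < m) :
    ∑ i ∈ Finset.range m, (w ^ j * (w⁻¹) ^ l) ^ i = if l = j % m then (m : ℂ) else 0 := by
  have hw0 : w ≠ 0 := hw.ne_zero hm.ne'
  have hj : w ^ j = w ^ (j % m) := pow_eq_pow_mod j hw.pow_eq_one
  split_ifs with h
  · have h1 : w ^ j * (w⁻¹) ^ l = 1 := by
      rw [hj, ← h, ← mul_pow, mul_inv_cancel₀ hw0, one_pow]
    rw [h1]
    simp
  · have h1 : w ^ j * (w⁻¹) ^ l ≠ 1 := by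
      intro h2
      apply h
      have h3 : w ^ j = w ^ l := by
        have h4 : w ^ j * (w⁻¹) ^ l * w ^ l = w ^ l := by rw [h2, one_mul]
        rw [mul_assoc, ← mul_pow, inv_mul_cancel₀ hw0, one_pow, mul_one] at h4
        exact h4
      rw [hj] at h3
      exact (hw.pow_inj (Nat.mod_lt _ hm) hl h3).symm
    have h4 : (w ^ j * (w⁻¹) ^ l) ^ m = 1 := by
      rw [mul_pow, ← pow_mul, ← pow_mul, mul_comm j m, mul_comm l m, pow_mul, pow_mul, hw.pow_eq_one,
        inv_pow, hw.pow_eq_one, inv_one, one_pow, one_pow, one_mul]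
    have h6 := mul_geom_sum (w ^ j * (w⁻¹) ^ l) m
    rw [h4, sub_self] at h6
    rcases mul_eq_zero.1 h6 with h7 | h7
    · exact absurd (sub_eq_zero.1 h7) h1
    · exact h7

/-- the projectors -/
theorem BTP_proj {ι : Type} [Fintype ι] [DecidableEq ι] (E P : Matrix ι ι ℂ) (m : ℕ) (hm : 0 < m)
    (hE : E * E = E) (hc : E * P = P * E) (hP : P ^ m = 1) (c : ℂ) (hcm : c ^ m = 1) :
    ∃ a : ℕ, ∑ l ∈ Finset.range m, c ^ l * Matrix.trace (E * P ^ l) = (m : ℂ) * a := by
  have hm0 : (m : ℂ) ≠ 0 := Nat.cast_ne_zero.2 hm.ne'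
  have hG : (c • P) ^ m = 1 := by rw [smul_pow, hP, hcm, one_smul]
  have hcS : Commute E (∑ l ∈ Finset.range m, (c • P) ^ l) := by
    refine Commute.sum_right _ _ _ fun j _ => ?_
    exact ((show Commute E P from hc).smul_right _).pow_right _
  obtain ⟨a, ha, -⟩ := BTP_rank ((m : ℂ)⁻¹ • (E * ∑ l ∈ Finset.range m, (c • P) ^ l)) (by
    have h1 : E * (∑ l ∈ Finset.range m, (c • P) ^ l) * (E * ∑ l ∈ Finset.range m, (c • P) ^ l) =
        (m : ℂ) • (E * ∑ l ∈ Finset.range m, (c • P) ^ l) := by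
      have h2 := BTP_geom' (c • P) m hG
      calc E * (∑ l ∈ Finset.range m, (c • P) ^ l) * (E * ∑ l ∈ Finset.range m, (c • P) ^ l) =
          E * ((∑ l ∈ Finset.range m, (c • P) ^ l) * E) * ∑ l ∈ Finset.range m, (c • P) ^ l := by
            simp only [mul_assoc]
        _ = E * (E * ∑ l ∈ Finset.range m, (c • P) ^ l) * ∑ l ∈ Finset.range m, (c • P) ^ l := by
            rw [hcS.eq]
        _ = (E * E) * ((∑ l ∈ Finset.range m, (c • P) ^ l) * ∑ l ∈ Finset.range m, (c • P) ^ l) := by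
            simp only [mul_assoc]
        _ = (m : ℂ) • (E * ∑ l ∈ Finset.range m, (c • P) ^ l) := by
            rw [hE, h2, Matrix.mul_smul]
    rw [Matrix.smul_mul, Matrix.mul_smul, h1, smul_smul, smul_smul]
    congr 1
    field_simp)
  refine ⟨a, ?_⟩
  rw [← ha, Matrix.trace_smul, smul_eq_mul, ← mul_assoc, mul_inv_cancel₀ hm0, one_mul, Finset.mul_sum,
    Matrix.trace_sum]
  refine Finset.sum_congr rfl fun l _ => ?_
  rw [smul_pow, Matrix.mul_smul, Matrix.trace_smul, smul_eq_mul]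

theorem BTP : BTP_stmt := by
  classical
  intro ι _ _ E P m hm hE hc hP hr
  have hm0 : (m : ℂ) ≠ 0 := Nat.cast_ne_zero.2 hm.ne'
  constructor
  · obtain ⟨a, ha⟩ := BTP_proj E P m hm hE hc hP 1 (one_pow _)
    refine ⟨a, ?_⟩
    rw [← ha]
    refine Finset.sum_congr rfl fun l _ => ?_
    rw [one_pow, one_mul]
  intro j hj
  have hw : IsPrimitiveRoot (Complex.exp (2 * Real.pi * Complex.I / m)) m :=
    Complex.isPrimitiveRoot_exp m hm.ne'
  obtain ⟨w, hwdef⟩ : ∃ w : ℂ, w = Complex.exp (2 * Real.pi * Complex.I / m) := ⟨_, rfl⟩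
  rw [← hwdef] at hw
  have hwinv : ∀ i : ℕ, ((w⁻¹) ^ i) ^ m = 1 := by
    intro i
    rw [← pow_mul, mul_comm i m, pow_mul, inv_pow, hw.pow_eq_one, inv_one, one_pow]
  choose a ha using fun i : ℕ => BTP_proj E P m hm hE hc hP ((w⁻¹) ^ i) (hwinv i)
  -- Fourier inversion
  have hinv : ∀ t : ℕ, ∑ i ∈ Finset.range m, (a i : ℂ) * (w ^ t) ^ i = Matrix.trace (E * P ^ t) := by
    intro t
    have h1 : (m : ℂ) * ∑ i ∈ Finset.range m, (a i : ℂ) * (w ^ t) ^ i =
        ∑ l ∈ Finset.range m, Matrix.trace (E * P ^ l) *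
          ∑ i ∈ Finset.range m, (w ^ t * (w⁻¹) ^ l) ^ i := by
      calc (m : ℂ) * ∑ i ∈ Finset.range m, (a i : ℂ) * (w ^ t) ^ i =
          ∑ i ∈ Finset.range m, (∑ l ∈ Finset.range m, ((w⁻¹) ^ i) ^ l * Matrix.trace (E * P ^ l)) *
            (w ^ t) ^ i := by
            rw [Finset.mul_sum]
            refine Finset.sum_congr rfl fun i _ => ?_
            rw [ha i]
            ring
        _ = ∑ i ∈ Finset.range m, ∑ l ∈ Finset.range m, Matrix.trace (E * P ^ l) *
            (w ^ t * (w⁻¹) ^ l) ^ i := by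
            refine Finset.sum_congr rfl fun i _ => ?_
            rw [Finset.sum_mul]
            refine Finset.sum_congr rfl fun l _ => ?_
            rw [mul_pow, ← pow_mul (w⁻¹) i l, ← pow_mul (w⁻¹) l i, mul_comm i l]
            ring
        _ = ∑ l ∈ Finset.range m, Matrix.trace (E * P ^ l) *
            ∑ i ∈ Finset.range m, (w ^ t * (w⁻¹) ^ l) ^ i := by
            rw [Finset.sum_comm]
            refine Finset.sum_congr rfl fun l _ => ?_
            rw [Finset.mul_sum]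
    have h2 : ∑ l ∈ Finset.range m, Matrix.trace (E * P ^ l) *
        ∑ i ∈ Finset.range m, (w ^ t * (w⁻¹) ^ l) ^ i = (m : ℂ) * Matrix.trace (E * P ^ t) := by
      have h3 : ∀ l ∈ Finset.range m, Matrix.trace (E * P ^ l) *
          ∑ i ∈ Finset.range m, (w ^ t * (w⁻¹) ^ l) ^ i =
          if l = t % m then Matrix.trace (E * P ^ l) * m else 0 := by
        intro l hl
        rw [BTP_orth m w hw hm t l (Finset.mem_range.1 hl)]
        split_ifs
        · rfl
        · rw [mul_zero]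
      rw [Finset.sum_congr rfl h3, Finset.sum_ite_eq', if_pos (Finset.mem_range.2 (Nat.mod_lt _ hm)),
        ← pow_eq_pow_mod t hP, mul_comm]
    rw [h2] at h1
    exact mul_left_cancel₀ hm0 h1
  obtain ⟨q, hq⟩ := hr 1
  rw [pow_one] at hq
  let R : Polynomial ℚ := ∑ i ∈ Finset.range m, Polynomial.C (a i : ℚ) * Polynomial.X ^ i -
    Polynomial.C q
  have hev : ∀ z : ℂ, Polynomial.aeval z R = ∑ i ∈ Finset.range m, (a i : ℂ) * z ^ i - (q : ℂ) := by
    intro z
    simp [R, map_sum]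
  have hR1 : Polynomial.aeval w R = 0 := by
    have h1 := hinv 1
    rw [pow_one, pow_one, hq] at h1
    rw [hev, h1, sub_self]
  have hdvd : Polynomial.cyclotomic m ℚ ∣ R := by
    rw [Polynomial.cyclotomic_eq_minpoly_rat hw hm]
    exact minpoly.dvd ℚ w hR1
  have hwj : IsPrimitiveRoot (w ^ j) m := hw.pow_of_coprime j hj
  have hRj : Polynomial.aeval (w ^ j) R = 0 := by
    obtain ⟨T, hT⟩ := hdvd
    rw [hT, map_mul]
    have h1 : Polynomial.aeval (w ^ j) (Polynomial.cyclotomic m ℚ) = 0 := by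
      rw [Polynomial.cyclotomic_eq_minpoly_rat hwj hm]
      exact minpoly.aeval ℚ _
    rw [h1, zero_mul]
  rw [hev, hinv j, sub_eq_zero] at hRj
  rw [hRj, hq]

end Pool.Agent.FI4B
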